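import Mathlib
import Pool.Agent.V11177.NetDet
import Pool.Agent.V11177.NetDetSeq

/-!
MP_739a3c, Q1 (proved).  For every `n ≥ 1` the least value of `min d_i / ∑ d_j` over all `n`-term
type B sequences is `1/2^(n-1)`.
-/

namespace Pool.Agent.Results.MP_739a3c_co.MinimumTypeB

open Matrix Finset NetDet

/-- Coefficient vector of the admissible equation `∑_{i ≤ t < j} d_t = ∑_{k ≤ t < l} d_t`
with `i < j ≤ k < l` (coordinates numbered `0,...,n-1`). -/
def eqB (n i j k l : ℕ) : Fin n → ℝ := fun t =>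
  if i ≤ (t : ℕ) ∧ (t : ℕ) < j then 1 else if k ≤ (t : ℕ) ∧ (t : ℕ) < l then -1 else 0

/-- type B sequences: positive vectors satisfying `n-1` linearly independent type B equations -/
def IsTypeB (n : ℕ) (d : Fin n → ℝ) : Prop :=
  (∀ t, 0 < d t) ∧ ∃ I J K L : Fin (n - 1) → ℕ,
    (∀ r, I r < J r ∧ J r ≤ K r ∧ K r < L r ∧ L r ≤ n) ∧
    LinearIndependent ℝ (fun r => eqB n (I r) (J r) (K r) (L r)) ∧
    ∀ r, eqB n (I r) (J r) (K r) (L r) ⬝ᵥ d = 0

/-- `B_n`: type B sequences in smallest-integer format -/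
def setB (n : ℕ) : Set (Fin n → ℕ) :=
  {d | Finset.univ.gcd d = 1 ∧ IsTypeB n (fun t => (d t : ℝ))}

lemma eqB_eq (m i j k l : ℕ) (h1 : i < j) (h2 : j ≤ k) (h3 : k < l) :
    eqB (m + 1) i j k l = (q j i k l : Fin (m + 1) → ℝ) := by
  funext t
  simp only [eqB, q, chi, Pi.add_apply, Pi.sub_apply]
  split_ifs <;> first | omega | norm_num

/-- every real type B sequence satisfies the bound -/
theorem bound (n : ℕ) (d : Fin n → ℝ) (h : IsTypeB n d) (t : Fin n) :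
    ∑ i, d i ≤ 2 ^ (n - 1) * d t := by
  obtain ⟨m, rfl⟩ : ∃ m, n = m + 1 := ⟨n - 1, by have := t.2; omega⟩
  obtain ⟨hpos, I, J, K, L, hb, li, hk⟩ := h
  simp only [Nat.add_sub_cancel] at *
  have he : ∀ r, eqB (m + 1) (I r) (J r) (K r) (L r) =
      (q (J r) (I r) (K r) (L r) : Fin (m + 1) → ℝ) :=
    fun r => eqB_eq m _ _ _ _ (hb r).1 (hb r).2.1 (hb r).2.2.1
  refine core m J I K L (fun r => ?_) (fun r => ?_) (fun r => ?_) (fun r => ?_) ?_ d hpos ?_ t
  · have := hb r; omega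
  · have := hb r; omega
  · have := hb r; omega
  · have := hb r; omega
  · have : (fun r => eqB (m + 1) (I r) (J r) (K r) (L r)) =
        fun r => (q (J r) (I r) (K r) (L r) : Fin (m + 1) → ℝ) := funext he
    rw [this] at li
    exact li
  · intro r; rw [← he r]; exact hk r

theorem result : ∀ n : ℕ, 1 ≤ n →
    (IsLeast {r : ℝ | ∃ d ∈ setB n, r = (⨅ t, (d t : ℝ)) / ∑ t, (d t : ℝ)} (1 / 2 ^ (n - 1))) ∧
    (∀ d : Fin n → ℝ, IsTypeB n d → ∀ t, ∑ i, d i ≤ 2 ^ (n - 1) * d t) := by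
  intro n hn
  refine ⟨?_, fun d hd t => bound n d hd t⟩
  obtain ⟨m, rfl⟩ : ∃ m, n = m + 1 := ⟨n - 1, by omega⟩
  constructor
  · refine ⟨fun t => dbl t, ⟨dbl_gcd m, fun t => ?_, ?_⟩, ?_⟩
    · have h1 := dbl_pos t
      have h2 : (1 : ℝ) ≤ ((dbl t : ℕ) : ℝ) := by exact_mod_cast h1
      exact lt_of_lt_of_le one_pos h2
    · refine ⟨fun _ => 0, fun r => (r : ℕ) + 1, fun r => (r : ℕ) + 1, fun r => (r : ℕ) + 2,
        fun r => ?_, ?_, fun r => ?_⟩
      · have := r.2; simp only; omega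
      · have : (fun r : Fin (m + 1 - 1) =>
            eqB (m + 1) 0 ((r : ℕ) + 1) ((r : ℕ) + 1) ((r : ℕ) + 2)) =
            fun r : Fin (m + 1 - 1) =>
              (q ((r : ℕ) + 1) 0 ((r : ℕ) + 1) ((r : ℕ) + 2) : Fin (m + 1) → ℝ) :=
          funext fun r => eqB_eq m _ _ _ _ (by omega) le_rfl (by omega)
        simp only [this]
        exact dbl_li m
      · have e := eqB_eq m 0 ((r : ℕ) + 1) ((r : ℕ) + 1) ((r : ℕ) + 2) (by omega) le_rfl (by omega)
        show eqB (m + 1) 0 ((r : ℕ) + 1) ((r : ℕ) + 1) ((r : ℕ) + 2) ⬝ᵥ _ = 0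
        rw [e]
        exact dbl_dot m r
    · rw [dbl_iInf, dbl_total]
      simp
  · rintro r ⟨d, ⟨_, hd⟩, rfl⟩
    exact ratio_ge m _ hd.1 (fun t => bound (m + 1) _ hd t)

end Pool.Agent.Results.MP_739a3c_co.MinimumTypeB
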